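import Pool.Agent.H77.FcqB

namespace Pool.Agent.Results.MP_c07d1e_lc.UnionClosed

open Pool.Agent.H77.Fcq

theorem result (σ : Type) [Finite σ] :
    {L : Set (List σ) | ∃ φ : CQ σ, L = φ.lang} =
      {L : Set (List σ) | ∃ Φ : List (CQ σ), L = ⋃ φ ∈ Φ, φ.lang} := by
  ext L
  constructor
  · rintro ⟨φ, rfl⟩
    exact ⟨[φ], by simp⟩
  · rintro ⟨Φ, rfl⟩
    obtain ⟨χ, h⟩ := unionL Φ
    exact ⟨χ, h.symm⟩

end Pool.Agent.Results.MP_c07d1e_lc.UnionClosed
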